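import Pool.Agent.Helper23_MHP.NISA
import Pool.Agent.MHP.Stmts

/-!
# Squad MHP, row NIS: the gadget determines the set of permutations
-/

set_option autoImplicit false

open scoped Classical

namespace Pool.Agent.MHP.H23

open Pool.Agent.MHP

section iso

variable {J : Type} [Finite J] {T B : ℕ} {GG GG' : Set (Equiv.Perm J)} {U : Type} [Finite U]
  {ρ ρ' : J → U} {H H' : SimpleGraph U}

theorem lf_inj {c : CX T GG} {c' : CX T GG'} (h : lf T B GG c = lf T B GG' c') :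
    (c = none ↔ c' = none) ∧ ∀ g k, c = some (g, k) → ∃ g', c' = some (g', k) := by
  unfold lf at h
  rcases c with _ | ⟨g, k⟩ <;> rcases c' with _ | ⟨g', k'⟩
  · refine ⟨by simp, ?_⟩
    intro g k h
    simp at h
  · simp only at h
    omega
  · simp only at h
    omega
  · simp only at h
    have h1 : ix J T k = ix J T k' := by omega
    have h2 : k = k' := by
      unfold ix at h1
      exact (Finite.equivFin (KX J T)).injective (Fin.ext h1)
    subst h2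
    refine ⟨by simp, ?_⟩
    intro g1 k1 h3
    have h4 := Option.some_injective _ h3
    have h5 : k = k1 := congrArg Prod.snd h4
    subst h5
    exact ⟨g', rfl⟩

theorem img_core (hB : Nat.card U + 2 ≤ B) (hG : GG.Nonempty) (hG' : GG'.Nonempty)
    (φ : Gr T B GG ρ H ≃g Gr T B GG' ρ' H') (c : CX T GG) :
    ∃ c' : CX T GG', φ (.inl ⟨c, none⟩) = .inl ⟨c', none⟩ ∧ lf T B GG c = lf T B GG' c' := by
  have hB2 : 2 ≤ B := by omega
  have h1 := lv_iso φ (.inl ⟨c, none⟩)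
  rw [lv_core hB2 hG c] at h1
  have h2 := lf_ge (B := B) c
  rcases hv : φ (.inl ⟨c, none⟩) with ⟨c', _ | t⟩ | u
  · rw [hv, lv_core hB2 hG' c'] at h1
    exact ⟨c', rfl, h1.symm⟩
  · rw [hv, lv_leaf hB2 c' t] at h1
    omega
  · rw [hv] at h1
    have := lv_U (T := T) (GG := GG') (ρ := ρ') (H := H') hB u
    omega

theorem img_inl (hB : Nat.card U + 2 ≤ B) (hG : GG.Nonempty) (hG' : GG'.Nonempty)
    (φ : Gr T B GG ρ H ≃g Gr T B GG' ρ' H') (x : Σ c : CX T GG, Option (Fin (lf T B GG c))) :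
    ∃ y, φ (.inl x) = .inl y := by
  obtain ⟨c, _ | t⟩ := x
  · obtain ⟨c', h1, -⟩ := img_core hB hG hG' φ c
    exact ⟨_, h1⟩
  · obtain ⟨c', h1, -⟩ := img_core hB hG hG' φ c
    have h2 : (Gr T B GG' ρ' H').Adj (φ (.inl ⟨c, none⟩)) (φ (.inl ⟨c, some t⟩)) :=
      φ.map_adj_iff.2 (core_leaf c t)
    rw [h1] at h2
    have h3 := dg_iso φ (.inl ⟨c, some t⟩)
    rw [leaf_deg c t] at h3
    obtain ⟨t', h4⟩ := core_nb (by omega) hG' c' _ h2 h3
    exact ⟨_, h4⟩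

theorem img_inr (hB : Nat.card U + 2 ≤ B) (hG : GG.Nonempty) (hG' : GG'.Nonempty)
    (φ : Gr T B GG ρ H ≃g Gr T B GG' ρ' H') (u : U) : ∃ u', φ (.inr u) = .inr u' := by
  rcases hv : φ (.inr u) with x | u'
  · exfalso
    obtain ⟨y, hy⟩ := img_inl hB hG' hG φ.symm x
    have h1 : φ.symm (φ (.inr u)) = .inr u := φ.symm_apply_apply _
    rw [hv, hy] at h1
    exact absurd h1 (by simp)
  · exact ⟨u', rfl⟩

/-- the induced isomorphism of the pieces -/
theorem img_U (hB : Nat.card U + 2 ≤ B) (hG : GG.Nonempty) (hG' : GG'.Nonempty)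
    (φ : Gr T B GG ρ H ≃g Gr T B GG' ρ' H') :
    ∃ η : H ≃g H', ∀ u, φ (.inr u) = .inr (η u) := by
  choose f hf using img_inr hB hG hG' φ
  choose f' hf' using img_inr hB hG' hG φ.symm
  have h1 : ∀ u, f' (f u) = u := by
    intro u
    have h2 : φ.symm (φ (.inr u)) = .inr u := φ.symm_apply_apply _
    rw [hf, hf'] at h2
    exact Sum.inr_injective h2
  have h1' : ∀ u, f (f' u) = u := by
    intro u
    have h2 : φ (φ.symm (.inr u)) = .inr u := φ.apply_symm_apply _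
    rw [hf', hf] at h2
    exact Sum.inr_injective h2
  refine ⟨⟨⟨f, f', h1, h1'⟩, ?_⟩, fun u => hf u⟩
  intro a b
  change H'.Adj (f a) (f b) ↔ H.Adj a b
  rw [← U_adj (T := T) (B := B) (GG := GG) (ρ := ρ) (H := H) a b,
    ← U_adj (T := T) (B := B) (GG := GG') (ρ := ρ') (H := H') (f a) (f b), ← hf, ← hf]
  exact φ.map_adj_iff

theorem img_o (hB : Nat.card U + 2 ≤ B) (hG : GG.Nonempty) (hG' : GG'.Nonempty)
    (φ : Gr T B GG ρ H ≃g Gr T B GG' ρ' H') : φ (.inl ⟨none, none⟩) = .inl ⟨none, none⟩ := by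
  obtain ⟨c', h1, h2⟩ := img_core hB hG hG' φ none
  have h3 := (lf_inj h2).1.1 rfl
  subst h3
  exact h1

theorem sub_of_iso (hρ : Function.Injective ρ) (hB : Nat.card U + 2 ≤ B)
    (hp : ∀ j k, PIso (PG.mk U H (ρ j)).comp (PG.mk U H (ρ k)).comp → j = k)
    (hG : GG.Nonempty) (hG' : GG'.Nonempty) (φ : Gr T B GG ρ H ≃g Gr T B GG' ρ H) :
    GG ⊆ GG' := by
  obtain ⟨η, hη⟩ := img_U hB hG hG' φ
  have hadj : ∀ {v w}, (Gr T B GG ρ H).Adj v w → (Gr T B GG' ρ H).Adj (φ v) (φ w) :=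
    fun h => φ.map_adj_iff.2 h
  -- hubs are fixed
  have hhub : ∀ j, φ (.inr (ρ j)) = .inr (ρ j) := by
    intro j
    have h1 := hadj ((o_hub (T := T) (B := B) (GG := GG) (ρ := ρ) (H := H) (ρ j)).2 ⟨j, rfl⟩)
    rw [img_o hB hG hG' φ, hη] at h1
    obtain ⟨k, hk⟩ := (o_hub _).1 h1
    have h2 := comp_iso η (ρ j)
    rw [hk] at h2
    have h3 := hp j k h2
    rw [hη, hk, h3]
  intro g hg
  obtain ⟨c', h1, h2⟩ := img_core hB hG hG' φ (some (⟨g, hg⟩, none))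
  obtain ⟨g', rfl⟩ := (lf_inj h2).2 _ _ rfl
  have hleg : ∀ (i : J) (n : ℕ) (hn : n < T + 1),
      φ (.inl ⟨some (⟨g, hg⟩, some (i, ⟨n, hn⟩)), none⟩) =
        .inl ⟨some (g', some (i, ⟨n, hn⟩)), none⟩ := by
    intro i n
    induction n with
    | zero =>
      intro hn
      obtain ⟨c'', h3, h4⟩ := img_core hB hG hG' φ (some (⟨g, hg⟩, some (i, ⟨0, hn⟩)))
      obtain ⟨g'', rfl⟩ := (lf_inj h4).2 _ _ rfl
      have h5 := hadj (spi_adj (B := B) (ρ := ρ) (H := H) ⟨g, hg⟩ none (some (i, ⟨0, hn⟩))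
        (SpAdj.c i))
      rw [h1, h3] at h5
      rw [h3, core_core _ _ _ _ h5]
    | succ n ih =>
      intro hn
      obtain ⟨c'', h3, h4⟩ := img_core hB hG hG' φ (some (⟨g, hg⟩, some (i, ⟨n + 1, hn⟩)))
      obtain ⟨g'', rfl⟩ := (lf_inj h4).2 _ _ rfl
      have h5 := hadj (spi_adj (B := B) (ρ := ρ) (H := H) ⟨g, hg⟩
        (some (i, ⟨n, Nat.lt_of_succ_lt hn⟩)) (some (i, ⟨n + 1, hn⟩))
        (SpAdj.s i ⟨n, Nat.lt_of_succ_lt_succ hn⟩))
      rw [ih, h3] at h5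
      rw [h3, core_core _ _ _ _ h5]
  have hgg : g'.1 = g := by
    ext i
    have h3 := hadj ((core_hub (T := T) (B := B) (GG := GG) (ρ := ρ) (H := H) ⟨g, hg⟩
      (some (i, Fin.last T)) (ρ (g i))).2 ⟨i, rfl, rfl⟩)
    have h4 := hleg i T (Nat.lt_succ_self T)
    have h5 : φ (.inl ⟨some (⟨g, hg⟩, some (i, Fin.last T)), none⟩) =
        .inl ⟨some (g', some (i, Fin.last T)), none⟩ := h4
    rw [h5, hhub] at h3
    obtain ⟨i', h6, h7⟩ := (core_hub _ _ _).1 h3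
    have h8 := congrArg Prod.fst (Option.some_injective _ h6)
    have h9 : i = i' := h8
    subst h9
    exact (hρ h7).symm
  rw [← hgg]
  exact g'.2

/-- the gadget determines the set of permutations -/
theorem nis0 (hρ : Function.Injective ρ) (hB : Nat.card U + 2 ≤ B)
    (hp : ∀ j k, PIso (PG.mk U H (ρ j)).comp (PG.mk U H (ρ k)).comp → j = k)
    (hG : GG.Nonempty) (hG' : GG'.Nonempty)
    (h : Nonempty (Gr T B GG ρ H ≃g Gr T B GG' ρ H)) : GG = GG' := by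
  obtain ⟨φ⟩ := h
  exact Set.Subset.antisymm (sub_of_iso hρ hB hp hG hG' φ) (sub_of_iso hρ hB hp hG' hG φ.symm)

end iso

/-- row NIS -/
theorem nis : NisStmt := by
  intro J _ _ T B GG GG' U _ ρ H hρ hB hG hG' hp h
  exact nis0 hρ hB hp hG hG' h

end Pool.Agent.MHP.H23
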