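import Pool.Agent.MHP.Defs

/-!
# Squad MHP, row NIS: the gadget determines the set of permutations
-/

set_option autoImplicit false

open scoped Classical

namespace Pool.Agent.MHP.H23

open Pool.Agent.MHP

section gen

variable {V W : Type} {G : SimpleGraph V} {H : SimpleGraph W}

/-- the number of the neighbours of degree one -/
noncomputable def lv (G : SimpleGraph V) (v : V) : ℕ :=
  Nat.card {w // G.Adj v w ∧ Nat.card {u // G.Adj w u} = 1}

theorem dg_iso (φ : G ≃g H) (w : V) :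
    Nat.card {u // H.Adj (φ w) u} = Nat.card {u // G.Adj w u} := by
  refine (Nat.card_congr (Equiv.subtypeEquiv φ.toEquiv fun u => ?_)).symm
  exact (φ.map_adj_iff (v := w) (w := u)).symm

theorem lv_iso (φ : G ≃g H) (v : V) : lv H (φ v) = lv G v := by
  unfold lv
  refine (Nat.card_congr (Equiv.subtypeEquiv φ.toEquiv fun u => ?_)).symm
  have h1 : H.Adj (φ v) (φ u) ↔ G.Adj v u := φ.map_adj_iff
  have h2 := dg_iso φ u
  change (G.Adj v u ∧ _) ↔ (H.Adj (φ v) (φ u) ∧ Nat.card {w // H.Adj (φ u) w} = 1)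
  rw [h1, h2]

theorem two_ne_one [Finite V] {v a b : V} (hab : a ≠ b) (ha : G.Adj v a) (hb : G.Adj v b) :
    Nat.card {u // G.Adj v u} ≠ 1 := by
  intro h
  have h1 := (Nat.card_eq_one_iff_unique.1 h).1
  have h2 := h1.elim (⟨a, ha⟩ : {u // G.Adj v u}) ⟨b, hb⟩
  exact hab (congrArg Subtype.val h2)

/-- an isomorphism maps the component of the root to the component of the image -/
theorem comp_iso {U U' : Type} [Finite U] [Finite U'] {H : SimpleGraph U} {H' : SimpleGraph U'}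
    (φ : H ≃g H') (a : U) : PIso (PG.mk U H a).comp (PG.mk U' H' (φ a)).comp := by
  have hr : ∀ v, H.Reachable a v ↔ H'.Reachable (φ a) (φ v) := fun v => by
    constructor
    · intro h
      exact h.map φ.toHom
    · intro h
      have h1 := h.map φ.symm.toHom
      have h2 : φ.symm (φ a) = a := φ.symm_apply_apply a
      have h3 : φ.symm (φ v) = v := φ.symm_apply_apply v
      change H.Reachable (φ.symm (φ a)) (φ.symm (φ v)) at h1
      rwa [h2, h3] at h1
  refine ⟨⟨Equiv.subtypeEquiv φ.toEquiv hr, ?_⟩, ?_⟩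
  · intro x y
    exact φ.map_adj_iff
  · rfl

end gen

section gad

variable {J : Type} [Finite J] {T B : ℕ} {GG : Set (Equiv.Perm J)} {U : Type} {ρ : J → U}
  {H : SimpleGraph U}

theorem leaf_adj (c : CX T GG) (t : Fin (lf T B GG c)) (v : Ver T B GG U) :
    (Gr T B GG ρ H).Adj (.inl ⟨c, some t⟩) v ↔ v = .inl ⟨c, none⟩ := by
  unfold Gr
  rw [SimpleGraph.fromRel_adj]
  constructor
  · rintro ⟨-, h | h⟩
    · cases h
    · cases h
      rfl
  · rintro rfl
    exact ⟨by simp, Or.inr (Rl.leaf c t)⟩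

theorem core_leaf (c : CX T GG) (t : Fin (lf T B GG c)) :
    (Gr T B GG ρ H).Adj (.inl ⟨c, none⟩) (.inl ⟨c, some t⟩) :=
  ((leaf_adj c t _).2 rfl).symm

theorem core_leaf' (c c' : CX T GG) (t : Fin (lf T B GG c'))
    (h : (Gr T B GG ρ H).Adj (.inl ⟨c, none⟩) (.inl ⟨c', some t⟩)) : c = c' := by
  have h1 := (leaf_adj c' t _).1 h.symm
  have h2 := Sum.inl_injective h1
  exact congrArg Sigma.fst h2

theorem core_core (g g' : GG) (k k' : KX J T)
    (h : (Gr T B GG ρ H).Adj (.inl ⟨some (g, k), none⟩) (.inl ⟨some (g', k'), none⟩)) :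
    g = g' := by
  unfold Gr at h
  rw [SimpleGraph.fromRel_adj] at h
  obtain ⟨-, h | h⟩ := h
  · cases h
    rfl
  · cases h
    rfl

theorem o_hub (u : U) :
    (Gr T B GG ρ H).Adj (.inl ⟨none, none⟩) (.inr u) ↔ ∃ j, u = ρ j := by
  unfold Gr
  rw [SimpleGraph.fromRel_adj]
  constructor
  · rintro ⟨-, h | h⟩
    · cases h
      exact ⟨_, rfl⟩
    · cases h
  · rintro ⟨j, rfl⟩
    exact ⟨by simp, Or.inl (Rl.oh j)⟩

theorem core_hub (g : GG) (k : KX J T) (u : U) :
    (Gr T B GG ρ H).Adj (.inl ⟨some (g, k), none⟩) (.inr u) ↔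
      ∃ i, k = some (i, Fin.last T) ∧ u = ρ (g.1 i) := by
  unfold Gr
  rw [SimpleGraph.fromRel_adj]
  constructor
  · rintro ⟨-, h | h⟩
    · cases h
      exact ⟨_, rfl, rfl⟩
    · cases h
  · rintro ⟨i, rfl, rfl⟩
    exact ⟨by simp, Or.inl (Rl.leg g i)⟩

theorem U_adj (u u' : U) : (Gr T B GG ρ H).Adj (.inr u) (.inr u') ↔ H.Adj u u' := by
  unfold Gr
  rw [SimpleGraph.fromRel_adj]
  constructor
  · rintro ⟨-, h | h⟩
    · cases h
      assumption
    · cases h
      exact H.adj_symm (by assumption)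
  · intro h
    exact ⟨fun h1 => h.ne (Sum.inr_injective h1), Or.inl (Rl.pc u u' h)⟩

theorem spi_adj (g : GG) (k k' : KX J T) (h : SpAdj T k k') :
    (Gr T B GG ρ H).Adj (.inl ⟨some (g, k), none⟩) (.inl ⟨some (g, k'), none⟩) := by
  unfold Gr
  rw [SimpleGraph.fromRel_adj]
  refine ⟨?_, Or.inl (Rl.spi g k k' h)⟩
  intro h1
  have h2 := congrArg Sigma.fst (Sum.inl_injective h1)
  have h3 : k = k' := by
    have := Option.some_injective _ h2
    exact congrArg Prod.snd this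
  cases h with
  | c i => exact absurd h3 (by simp)
  | s i a =>
    have h4 := Option.some_injective _ h3
    have h5 := congrArg (fun x : J × Fin (T + 1) => (x.2 : ℕ)) h4
    simp at h5

theorem lf_ge (c : CX T GG) : B ≤ lf T B GG c := by
  unfold lf
  rcases c with _ | ⟨g, k⟩
  · exact le_rfl
  · simp only
    omega

variable [Finite U]

theorem core_deg (hB : 2 ≤ B) (c : CX T GG) :
    Nat.card {u // (Gr T B GG ρ H).Adj (.inl ⟨c, none⟩) u} ≠ 1 := by
  have h := lf_ge (B := B) c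
  refine two_ne_one (a := .inl ⟨c, some ⟨0, by omega⟩⟩) (b := .inl ⟨c, some ⟨1, by omega⟩⟩) ?_
    (core_leaf c _) (core_leaf c _)
  intro h1
  have h2 := Sum.inl_injective h1
  simp at h2

theorem hub_deg (hG : GG.Nonempty) (j : J) :
    Nat.card {u // (Gr T B GG ρ H).Adj (.inr (ρ j)) u} ≠ 1 := by
  obtain ⟨g, hg⟩ := hG
  refine two_ne_one (a := .inl ⟨none, none⟩)
    (b := .inl ⟨some (⟨g, hg⟩, some (g.symm j, Fin.last T)), none⟩) ?_ ?_ ?_
  · intro h1
    have h2 := congrArg Sigma.fst (Sum.inl_injective h1)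
    simp at h2
  · exact ((o_hub _).2 ⟨j, rfl⟩).symm
  · refine ((core_hub _ _ _).2 ⟨g.symm j, rfl, ?_⟩).symm
    rw [Equiv.apply_symm_apply]

theorem leaf_deg (c : CX T GG) (t : Fin (lf T B GG c)) :
    Nat.card {u // (Gr T B GG ρ H).Adj (.inl ⟨c, some t⟩) u} = 1 := by
  rw [Nat.card_eq_one_iff_unique]
  refine ⟨⟨?_⟩, ⟨⟨.inl ⟨c, none⟩, (leaf_adj c t _).2 rfl⟩⟩⟩
  rintro ⟨a, ha⟩ ⟨b, hb⟩
  rw [leaf_adj] at ha hb
  exact Subtype.ext (ha.trans hb.symm)

/-- neighbours of a core vertex of degree one are its leaves -/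
theorem core_nb (hB : 2 ≤ B) (hG : GG.Nonempty) (c : CX T GG) (v : Ver T B GG U)
    (h : (Gr T B GG ρ H).Adj (.inl ⟨c, none⟩) v)
    (h1 : Nat.card {u // (Gr T B GG ρ H).Adj v u} = 1) : ∃ t, v = .inl ⟨c, some t⟩ := by
  rcases v with ⟨c', _ | t⟩ | u
  · exact absurd h1 (core_deg hB c')
  · have h2 := core_leaf' c c' t h
    subst h2
    exact ⟨t, rfl⟩
  · exfalso
    rcases c with _ | ⟨g, k⟩
    · obtain ⟨j, rfl⟩ := (o_hub u).1 h
      exact hub_deg hG j h1
    · obtain ⟨i, -, rfl⟩ := (core_hub g k u).1 h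
      exact hub_deg hG _ h1

theorem lv_core (hB : 2 ≤ B) (hG : GG.Nonempty) (c : CX T GG) :
    lv (Gr T B GG ρ H) (.inl ⟨c, none⟩) = lf T B GG c := by
  unfold lv
  refine Eq.trans ?_ (Nat.card_fin (lf T B GG c))
  refine (Nat.card_congr (Equiv.ofBijective
    (fun t : Fin (lf T B GG c) => (⟨.inl ⟨c, some t⟩, core_leaf c t, leaf_deg c t⟩ :
      {w // (Gr T B GG ρ H).Adj (.inl ⟨c, none⟩) w ∧
        Nat.card {u // (Gr T B GG ρ H).Adj w u} = 1})) ⟨?_, ?_⟩)).symm
  · intro t t' h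
    have h1 := Sum.inl_injective (congrArg Subtype.val h)
    simpa using h1
  · rintro ⟨v, hv1, hv2⟩
    obtain ⟨t, rfl⟩ := core_nb hB hG c v hv1 hv2
    exact ⟨t, rfl⟩

theorem lv_leaf (hB : 2 ≤ B) (c : CX T GG) (t : Fin (lf T B GG c)) :
    lv (Gr T B GG ρ H) (.inl ⟨c, some t⟩) = 0 := by
  unfold lv
  rw [Nat.card_eq_zero]
  left
  refine ⟨?_⟩
  rintro ⟨v, hv1, hv2⟩
  rw [leaf_adj] at hv1
  subst hv1
  exact core_deg hB c hv2

theorem lv_U (hB : Nat.card U + 2 ≤ B) (u : U) :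
    lv (Gr T B GG ρ H) (.inr u) < B := by
  have h : lv (Gr T B GG ρ H) (.inr u) ≤ Nat.card U := by
    unfold lv
    refine Nat.card_le_card_of_injective (fun w => (Sum.elim (fun _ => u) id w.1 : U)) ?_
    rintro ⟨v, hv1, hv2⟩ ⟨v', hv1', hv2'⟩ h
    have key : ∀ v : Ver T B GG U, (Gr T B GG ρ H).Adj (.inr u) v →
        Nat.card {u // (Gr T B GG ρ H).Adj v u} = 1 → ∃ u', v = .inr u' := by
      intro v h1 h2
      rcases v with ⟨c, _ | t⟩ | u'
      · exact absurd h2 (core_deg (by omega) c)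
      · have := (leaf_adj c t _).1 h1.symm
        exact absurd this (by simp)
      · exact ⟨u', rfl⟩
    obtain ⟨a, rfl⟩ := key v hv1 hv2
    obtain ⟨b, rfl⟩ := key v' hv1' hv2'
    have : a = b := h
    subst this
    rfl
  omega

end gad

end Pool.Agent.MHP.H23
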