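import Pool.Agent.Helper94_MHP.DPC

/-!
# MHP: the space of all graph properties; generic properties have infinitely many pairs of mates
-/

set_option autoImplicit false

namespace Pool.Agent.MHP

open Pool.Agent.HMT

/-- The space of all graph properties: the isomorphism invariant 0-1 functions on the graphs with
vertex sets `Fin n`, with the product topology. -/
abbrev PropSpace : Type :=
  {f : (Σ n : ℕ, SimpleGraph (Fin n)) → Bool //
    ∀ (n : ℕ) (G H : SimpleGraph (Fin n)), Nonempty (G ≃g H) → f ⟨n, G⟩ = f ⟨n, H⟩}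

/-- The graph property given by a point of the space: `G` belongs to it iff the value is `true` at a
copy of `G` on some `Fin n`. -/
def toProp (f : PropSpace) : GProp where
  mem := fun V _ G => ∃ (n : ℕ) (H : SimpleGraph (Fin n)), Nonempty (G ≃g H) ∧ f.1 ⟨n, H⟩ = true
  iso := fun V W _ _ G H h => by
    obtain ⟨e⟩ := h
    constructor
    · rintro ⟨n, K, ⟨φ⟩, h1⟩
      exact ⟨n, K, ⟨e.symm.trans φ⟩, h1⟩
    · rintro ⟨n, K, ⟨φ⟩, h1⟩
      exact ⟨n, K, ⟨e.trans φ⟩, h1⟩

namespace H23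

theorem mem_toProp (f : PropSpace) {V : Type} [Finite V] (G : SimpleGraph V) (n : ℕ)
    (H : SimpleGraph (Fin n)) (h : Nonempty (G ≃g H)) :
    (toProp f).mem G ↔ f.1 ⟨n, H⟩ = true := by
  constructor
  · rintro ⟨m, K, ⟨φ⟩, h1⟩
    obtain ⟨e⟩ := h
    have h2 : m = n := by
      have h3 := Nat.card_congr (φ.symm.trans e).toEquiv
      simpa using h3
    subst h2
    rw [← h1]
    exact f.2 _ _ _ ⟨e.symm.trans φ⟩
  · intro h1
    exact ⟨n, H, h, h1⟩

open Classical in
/-- the point of a graph property -/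
noncomputable def ofProp (P : GProp) : PropSpace :=
  ⟨fun x => decide (P.mem x.2), fun n G H h => by
    have := P.iso G H h
    simp [this]⟩

theorem ofProp_apply (P : GProp) (n : ℕ) (G : SimpleGraph (Fin n)) :
    (ofProp P).1 ⟨n, G⟩ = true ↔ P.mem G := by
  classical
  simp [ofProp]

theorem exists_copy {V : Type} [Finite V] (G : SimpleGraph V) :
    ∃ H : SimpleGraph (Fin (Nat.card V)), Nonempty (G ≃g H) :=
  ⟨G.map (Finite.equivFin V).toEmbedding, ⟨SimpleGraph.Iso.map (Finite.equivFin V) G⟩⟩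

/-- every graph property comes from exactly one point of the space -/
theorem existsUnique_point (P : GProp) : ∃! f : PropSpace,
    ∀ (V : Type) [Finite V] (G : SimpleGraph V), (toProp f).mem G ↔ P.mem G := by
  refine ⟨ofProp P, ?_, ?_⟩
  · intro V _ G
    obtain ⟨H, hH⟩ := exists_copy G
    rw [mem_toProp (ofProp P) G _ H hH, ofProp_apply, P.iso G H hH]
  · intro f hf
    apply Subtype.ext
    funext x
    obtain ⟨n, G⟩ := x
    have h1 := hf (Fin n) G
    rw [mem_toProp f G n G ⟨SimpleGraph.Iso.refl⟩, ← ofProp_apply P n G] at h1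
    exact Bool.eq_iff_iff.2 h1

theorem isClosed_range : IsClosed {f : (Σ n : ℕ, SimpleGraph (Fin n)) → Bool |
    ∀ (n : ℕ) (G H : SimpleGraph (Fin n)), Nonempty (G ≃g H) → f ⟨n, G⟩ = f ⟨n, H⟩} := by
  simp only [Set.setOf_forall]
  refine isClosed_iInter fun n => isClosed_iInter fun G => isClosed_iInter fun H =>
    isClosed_iInter fun _ => isClosed_eq (continuous_apply _) (continuous_apply _)

instance compactSpace_propSpace : CompactSpace PropSpace :=
  isCompact_iff_compactSpace.1 isClosed_range.isCompact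

/-- the space is a Baire space -/
theorem baire : BaireSpace PropSpace := inferInstance

/-- properties with mates of order at least `s` -/
def Us (s : ℕ) : Set PropSpace :=
  {f | ∃ m, s ≤ m ∧ ∃ G H : SimpleGraph (Fin m), Mates (toProp f) G H}

theorem isOpen_agree (f : PropSpace) (n : ℕ) :
    IsOpen {h : PropSpace | ∀ k ≤ n, ∀ G : SimpleGraph (Fin k), h.1 ⟨k, G⟩ = f.1 ⟨k, G⟩} := by
  have h1 : {h : PropSpace | ∀ k ≤ n, ∀ G : SimpleGraph (Fin k), h.1 ⟨k, G⟩ = f.1 ⟨k, G⟩} =
      ⋂ k : Fin (n + 1), ⋂ G : SimpleGraph (Fin k.1), {h : PropSpace | h.1 ⟨k.1, G⟩ = f.1 ⟨k.1, G⟩} := by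
    ext h
    simp only [Set.mem_setOf_eq, Set.mem_iInter]
    constructor
    · intro h2 k G
      exact h2 k.1 (Nat.lt_succ_iff.1 k.2) G
    · intro h2 k hk G
      exact h2 ⟨k, Nat.lt_succ_iff.2 hk⟩ G
  rw [h1]
  refine isOpen_iInter_of_finite fun k => isOpen_iInter_of_finite fun G => ?_
  have h2 : Continuous fun h : PropSpace => h.1 (⟨k.1, G⟩ : Σ n : ℕ, SimpleGraph (Fin n)) :=
    (continuous_apply _).comp continuous_subtype_val
  exact (isOpen_discrete {f.1 ⟨k.1, G⟩}).preimage h2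

theorem dense_Us (hmai : MaiStmt) (s : ℕ) : Dense (interior (Us s)) := by
  rw [dense_iff_inter_open]
  rintro V hV ⟨f, hf⟩
  obtain ⟨W, hW, rfl⟩ := isOpen_induced_iff.1 hV
  obtain ⟨I, u, hu, hIW⟩ := isOpen_pi_iff.1 hW f.1 hf
  -- bound of the orders
  obtain ⟨t, ht1, ht2⟩ : ∃ t, s ≤ t ∧ ∀ x ∈ I, x.1 ≤ t :=
    ⟨max s (I.sup fun x => x.1), le_max_left _ _, fun x hx =>
      (Finset.le_sup (f := fun x : (Σ n : ℕ, SimpleGraph (Fin n)) => x.1) hx).trans
        (le_max_right _ _)⟩
  obtain ⟨P', n, hP, hn⟩ := H94.resid hmai (toProp f) t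
  refine ⟨ofProp P', ?_, ?_⟩
  · apply hIW
    intro x hx
    have h1 : (ofProp P').1 x = f.1 x := by
      obtain ⟨k, G⟩ := x
      rw [Bool.eq_iff_iff, ofProp_apply]
      rw [hP (Fin k) G (by simpa using ht2 _ hx)]
      exact mem_toProp f G k G ⟨SimpleGraph.Iso.refl⟩
    rw [h1]
    exact (hu x hx).2
  · refine mem_interior.2 ⟨_, ?_, isOpen_agree (ofProp P') n, ?_⟩
    · intro h hh
      obtain ⟨m, hm, G, H, hGH⟩ := hn (toProp h) (by
        intro V _ G hG
        obtain ⟨H, hH⟩ := exists_copy G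
        rw [mem_toProp h G _ H hH, hh _ hG H, ofProp_apply, P'.iso G H hH])
      exact ⟨m, ht1.trans hm, G, H, hGH⟩
    · intro k _ G
      rfl

/-- The generic graph property has infinitely many pairs of mates. -/
theorem res (hmai : MaiStmt) :
    ∃ D : Set PropSpace, IsGδ D ∧ Dense D ∧ ∀ f ∈ D, InfMates (toProp f) := by
  haveI := baire
  refine ⟨⋂ s, interior (Us s), IsGδ.iInter_of_isOpen fun s => isOpen_interior,
    dense_iInter_of_isOpen (fun s => isOpen_interior) (dense_Us hmai), ?_⟩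
  intro f hf N
  have h1 : f ∈ Us N := interior_subset (Set.mem_iInter.1 hf N)
  exact h1

/-- residual form -/
theorem res' (hmai : MaiStmt) : ∀ᶠ f in residual PropSpace, InfMates (toProp f) := by
  obtain ⟨D, h1, h2, h3⟩ := res hmai
  exact mem_residual.2 ⟨D, h3, h1, h2⟩

end H23

end Pool.Agent.MHP
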