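import Pool.Agent.MHP.Stmts

/-!
# Squad MHP, row THN: sparse graphs are thin
-/

set_option autoImplicit false

open scoped Classical

namespace Pool.Agent.MHP.H23

open Pool.Agent.MHP Pool.Agent.HMT

theorem cyc_edges {V : Type} [Finite V] (G : SimpleGraph V) (v : V) (c : G.Walk v v)
    (hc : c.IsCycle) :
    c.length ≤ Nat.card (G.induce {w | w ∈ c.support}).edgeSet := by
  have key : ∀ e : {e // e ∈ c.edges.toFinset},
      ∃ e' : (G.induce {w | w ∈ c.support}).edgeSet, Sym2.map Subtype.val e'.1 = e.1 := by
    rintro ⟨e, he⟩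
    rw [List.mem_toFinset] at he
    induction e with
    | _ a b =>
      have ha := c.fst_mem_support_of_mem_edges he
      have hb := c.snd_mem_support_of_mem_edges he
      have hab : G.Adj a b := c.adj_of_mem_edges he
      exact ⟨⟨s(⟨a, ha⟩, ⟨b, hb⟩), hab⟩, rfl⟩
  choose f hf using key
  have hinj : Function.Injective f := by
    intro a b h
    apply Subtype.ext
    rw [← hf a, ← hf b, h]
  have h2 := Nat.card_le_card_of_injective f hinj
  have h3 : Nat.card {e // e ∈ c.edges.toFinset} = c.length := by
    rw [Nat.card_eq_fintype_card, Fintype.card_coe,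
      List.toFinset_card_of_nodup hc.isCircuit.isTrail.edges_nodup, SimpleGraph.Walk.length_edges]
  omega

theorem cyc_vert {V : Type} [Finite V] (G : SimpleGraph V) (v : V) (c : G.Walk v v)
    (hc : c.IsCycle) : Nat.card {w | w ∈ c.support} ≤ c.length := by
  have h1 : ∀ w : {w | w ∈ c.support}, w.1 ∈ c.support.tail.toFinset := by
    rintro ⟨w, hw⟩
    rw [List.mem_toFinset]
    have hw' : w ∈ c.support := hw
    rw [SimpleGraph.Walk.mem_support_iff] at hw'
    rcases hw' with rfl | h
    · exact c.end_mem_tail_support hc.not_nil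
    · exact h
  have h2 := Nat.card_le_card_of_injective
    (fun w : {w | w ∈ c.support} => (⟨w.1, h1 w⟩ : {w // w ∈ c.support.tail.toFinset}))
    (by
      intro a b h
      exact Subtype.ext (congrArg (fun x => x.1) h))
  have h3 : Nat.card {w // w ∈ c.support.tail.toFinset} ≤ c.length := by
    rw [Nat.card_eq_fintype_card, Fintype.card_coe]
    refine (List.toFinset_card_le _).trans ?_
    rw [List.length_tail, SimpleGraph.Walk.length_support]
    omega
  exact h2.trans h3

theorem thn : ThnStmt := by
  intro g V _ G hS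
  rcases hS with h0 | ⟨hcol, hX⟩
  · omega
  refine ⟨hcol, ?_, ?_⟩
  · intro v c hc
    have h1 := hX {w | w ∈ c.support} ⟨v, c.start_mem_support⟩
    have h2 := cyc_edges G v c hc
    have h3 := cyc_vert G v c hc
    have h4 : 3 ≤ c.length := hc.three_le_length
    set e := Nat.card (G.induce {w | w ∈ c.support}).edgeSet
    set n := Nat.card {w | w ∈ c.support}
    have h5 : (g + 1) * c.length ≤ (g + 1 + 1) * (c.length - 1) :=
      (Nat.mul_le_mul_left _ h2).trans (h1.trans (Nat.mul_le_mul_left _ (Nat.sub_le_sub_right h3 1)))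
    obtain ⟨l, hl⟩ : ∃ l, c.length = l + 1 := ⟨c.length - 1, by omega⟩
    rw [hl] at h5 ⊢
    rw [Nat.add_sub_cancel] at h5
    nlinarith
  · rcases isEmpty_or_nonempty V with hV | hV
    · have h1 : Nat.card G.edgeSet = 0 := by
        rw [Nat.card_eq_zero]
        left
        refine ⟨?_⟩
        rintro ⟨e, he⟩
        induction e with
        | _ a b => exact hV.elim a
      rw [h1]
      simp
    · have h1 := hX Set.univ Set.univ_nonempty
      have h2 : Nat.card (G.induce Set.univ).edgeSet = Nat.card G.edgeSet :=
        Nat.card_congr (SimpleGraph.induceUnivIso G).mapEdgeSet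
      have h3 : Nat.card (Set.univ : Set V) = Nat.card V := Nat.card_congr (Equiv.Set.univ V)
      rw [h2, h3] at h1
      have h4 : (g + 1) * Nat.card G.edgeSet ≤ (g + 1 + 1) * Nat.card V :=
        h1.trans (Nat.mul_le_mul_left _ (Nat.sub_le _ _))
      have h5 : (g + 1) * (g * Nat.card G.edgeSet) ≤ (g + 1) * ((g + 1) * Nat.card V) := by
        have h6 := Nat.mul_le_mul_left g h4
        nlinarith
      exact Nat.le_of_mul_le_mul_left h5 (Nat.succ_pos g)

end Pool.Agent.MHP.H23
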